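import Pool.Agent.TH501.HHF.CharP

/-!
Descent along an extension of fields, and the containment of symbolic powers of ideals of fat
points in powers over an arbitrary field.
-/

set_option autoImplicit false

universe u

namespace Pool.Agent.TH501.HHF

open MvPolynomial Pool.Agent.H737R3 Pool.Agent.H737R3.Cont Pool.Agent.Chud

section

variable {K k : Type u} [Field K] [Field k] [Algebra K k] {N : ℕ} {ι : Type u}
  (e : Module.Basis ι K k)

/-- the coordinate of a polynomial with respect to a basis of the extension -/
noncomputable def co (j : ι) (f : MvPolynomial (Fin N) k) : MvPolynomial (Fin N) K :=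
  ∑ c ∈ f.support, monomial c (e.repr (coeff c f) j)

theorem coeff_co (j : ι) (f : MvPolynomial (Fin N) k) (c : Fin N →₀ ℕ) :
    coeff c (co e j f) = e.repr (coeff c f) j := by
  classical
  unfold co
  rw [coeff_sum]
  simp only [coeff_monomial]
  rw [Finset.sum_ite_eq']
  split_ifs with h
  · rfl
  · rw [notMem_support_iff.1 h]
    simp

theorem co_add (j : ι) (f g : MvPolynomial (Fin N) k) : co e j (f + g) = co e j f + co e j g := by
  ext c
  rw [coeff_co, coeff_add, coeff_add, coeff_co, coeff_co, map_add, Finsupp.add_apply]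

theorem co_zero (j : ι) : co e j (0 : MvPolynomial (Fin N) k) = 0 := by
  ext c
  rw [coeff_co, coeff_zero, coeff_zero, map_zero, Finsupp.zero_apply]

theorem co_mul_map (j : ι) (f : MvPolynomial (Fin N) k) (g : MvPolynomial (Fin N) K) :
    co e j (f * map (algebraMap K k) g) = co e j f * g := by
  classical
  ext c
  rw [coeff_co, coeff_mul, coeff_mul, map_sum, Finsupp.finsetSum_apply]
  apply Finset.sum_congr rfl
  intro x _
  rw [coeff_map, coeff_co, mul_comm, ← Algebra.smul_def, map_smul, Finsupp.smul_apply, smul_eq_mul,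
    mul_comm]

theorem co_mem (I : Ideal (MvPolynomial (Fin N) K)) (j : ι) {f : MvPolynomial (Fin N) k}
    (hf : f ∈ Ideal.map (map (algebraMap K k)) I) : co e j f ∈ I := by
  unfold Ideal.map at hf
  have key : ∀ h, co e j (h * f) ∈ I := by
    refine Submodule.span_induction (p := fun x _ => ∀ h, co e j (h * x) ∈ I) ?_ ?_ ?_ ?_ hf
    · rintro _ ⟨a, ha, rfl⟩ h
      rw [co_mul_map]
      exact Ideal.mul_mem_left _ _ ha
    · intro h
      rw [mul_zero, co_zero]
      exact I.zero_mem
    · intro x y _ _ hx hy h
      rw [mul_add, co_add]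
      exact I.add_mem (hx h) (hy h)
    · intro a x _ hx h
      rw [smul_eq_mul, ← mul_assoc]
      exact hx (h * a)
  simpa using key 1

theorem mem_map_of_co (I : Ideal (MvPolynomial (Fin N) K)) {f : MvPolynomial (Fin N) k}
    (hf : ∀ j, co e j f ∈ I) : f ∈ Ideal.map (map (algebraMap K k)) I := by
  classical
  set L : Finset ι := f.support.biUnion (fun c => (e.repr (coeff c f)).support) with hL
  have h1 : f = ∑ j ∈ L, C (e j) * map (algebraMap K k) (co e j f) := by
    ext c
    rw [coeff_sum]
    simp only [coeff_C_mul, coeff_map, coeff_co]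
    by_cases hc : c ∈ f.support
    · have h2 : (e.repr (coeff c f)).support ⊆ L := Finset.subset_biUnion_of_mem
        (fun c => (e.repr (coeff c f)).support) hc
      have h3 := e.linearCombination_repr (coeff c f)
      rw [Finsupp.linearCombination_apply, Finsupp.sum_of_support_subset _ h2] at h3
      · conv_lhs => rw [← h3]
        apply Finset.sum_congr rfl
        intro j _
        rw [Algebra.smul_def, mul_comm]
      · intro j _
        rw [zero_smul]
    · rw [notMem_support_iff.1 hc]
      simp
  rw [h1]
  apply Ideal.sum_mem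
  intro j _
  exact Ideal.mul_mem_left _ _ (Ideal.mem_map_of_mem _ (hf j))

end

section

variable {K k : Type u} [Field K] [Field k] [Algebra K k] {n s : ℕ}

/-- ideals of points and extensions of the field -/
theorem map_linI {P : Fin (n + 1) → K} (hP : P ≠ 0) :
    Ideal.map (map (algebraMap K k)) (linI P) = linI (fun j => algebraMap K k (P j)) := by
  have hP' : (fun j => algebraMap K k (P j)) ≠ 0 := by
    intro h
    apply hP
    funext j
    have := congrFun h j
    simpa using this
  rw [← span_eq_linI hP, ← span_eq_linI hP', Ideal.map_span, ← Set.range_comp]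
  congr 2
  funext jl
  simp

/-- descent of the containment -/
theorem descent (P : Fin s → Fin (n + 1) → K) (hP : ∀ i, P i ≠ 0) (u w : Fin s → ℕ) (t : ℕ)
    (h : (⨅ i, linI (fun j => algebraMap K k (P i j)) ^ (u i)) ≤
      (⨅ i, linI (fun j => algebraMap K k (P i j)) ^ (w i)) ^ t) :
    (⨅ i, linI (P i) ^ (u i)) ≤ (⨅ i, linI (P i) ^ (w i)) ^ t := by
  intro F hF
  rw [Submodule.mem_iInf] at hF
  set e := Module.Basis.ofVectorSpace K k with he
  have h1 : map (algebraMap K k) F ∈ ⨅ i, linI (fun j => algebraMap K k (P i j)) ^ (u i) := by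
    rw [Submodule.mem_iInf]
    intro i
    rw [← map_linI (hP i), ← Ideal.map_pow]
    exact Ideal.mem_map_of_mem _ (hF i)
  have h2 : (⨅ i, linI (fun j => algebraMap K k (P i j)) ^ (w i)) ≤
      Ideal.map (map (algebraMap K k)) (⨅ i, linI (P i) ^ (w i)) := by
    intro f hf
    rw [Submodule.mem_iInf] at hf
    apply mem_map_of_co e
    intro j
    rw [Submodule.mem_iInf]
    intro i
    apply co_mem e
    rw [Ideal.map_pow, map_linI (hP i)]
    exact hf i
  have h3 := Ideal.pow_right_mono h2 t (h h1)
  rw [← Ideal.map_pow] at h3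
  obtain ⟨j, hj⟩ : ∃ j, e.repr 1 j ≠ 0 := by
    by_contra hcon
    push Not at hcon
    have h4 : e.repr (1 : k) = 0 := by
      ext j
      exact hcon j
    have h5 : (1 : k) = 0 := by
      rw [← e.repr.map_eq_zero_iff]
      exact h4
    exact one_ne_zero h5
  have h6 := co_mem e _ j h3
  have h7 : co e j (map (algebraMap K k) F) = C (e.repr 1 j) * F := by
    have h8 := co_mul_map e j (1 : MvPolynomial (Fin (n + 1)) k) F
    rw [one_mul] at h8
    rw [h8]
    congr 1
    classical
    ext c
    rw [coeff_co, coeff_one, coeff_C]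
    split_ifs
    · rfl
    · simp
  rw [h7] at h6
  have h9 := Ideal.mul_mem_left _ (C (e.repr 1 j)⁻¹) h6
  rw [← mul_assoc, ← C_mul, inv_mul_cancel₀ hj, C_1, one_mul] at h9
  exact h9

/-- **Symbolic powers of ideals of fat points lie in powers**: arbitrary fields. -/
theorem contAny (hn : 2 ≤ n) (hs : 0 < s) (P : Fin s → Fin (n + 1) → K) (hP : ∀ i, P i ≠ 0)
    (w : Fin s → ℕ) {t : ℕ} (ht : 1 ≤ t) :
    (⨅ i, linI (P i) ^ (t * (w i + n - 1))) ≤ (⨅ i, linI (P i) ^ (w i)) ^ t := by
  obtain ⟨p, hp⟩ := CharP.exists K
  rcases CharP.char_is_prime_or_zero K p with hpp | rfl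
  · have : Fact p.Prime := ⟨hpp⟩
    have : CharP (AlgebraicClosure K) p :=
      charP_of_injective_algebraMap (algebraMap K (AlgebraicClosure K)).injective p
    apply descent (k := AlgebraicClosure K) P hP
    refine contP p (fun i j => algebraMap K (AlgebraicClosure K) (P i j)) (fun i h => ?_) w
      (by omega) ht
    apply hP i
    funext j
    have := congrFun h j
    simpa using this
  · have : CharZero K := CharP.charP_to_charZero K
    exact le_trans (cont hn hs (by omega) P hP w) Ideal.mul_le_right

end

end Pool.Agent.TH501.HHF
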