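import Pool.Agent.TH501.HHF.Euler

/-!
The containment of symbolic powers of ideals of fat points in powers, over perfect fields of
positive characteristic (Hochster-Huneke), by Frobenius powers.
-/

set_option autoImplicit false

universe u

namespace Pool.Agent.TH501.HHF

open MvPolynomial Pool.Agent.H737R3 Pool.Agent.H737R3.Cont Pool.Agent.Chud

section

variable {k : Type u} [Field k] (p : ℕ) [Fact p.Prime] [CharP k p]

/-- iterated Frobenius powers of an ideal -/
noncomputable def froE {N : ℕ} : ℕ → Ideal (MvPolynomial (Fin N) k) →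
    Ideal (MvPolynomial (Fin N) k)
  | 0, I => I
  | E + 1, I => fro p (froE E I)

variable [PerfectRing k p]

theorem froE_pow {N : ℕ} (E t : ℕ) (I : Ideal (MvPolynomial (Fin N) k)) :
    (froE p E I) ^ t = froE p E (I ^ t) := by
  induction E with
  | zero => rfl
  | succ E ih =>
    show (fro p (froE p E I)) ^ t = fro p (froE p E (I ^ t))
    rw [fro_pow, ih]

variable {n s : ℕ}

/-- forms with large orders lie in iterated Frobenius powers -/
theorem mem_froE (P : Fin s → Fin (n + 1) → k) (hP : ∀ i, P i ≠ 0) (w : Fin s → ℕ)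
    (hn : 1 ≤ n) : ∀ (E d : ℕ) (F : MvPolynomial (Fin (n + 1)) k), F.IsHomogeneous d →
    (∀ i, F ∈ mI (P i) ^ (p ^ E * (w i + n - 1) - (n - 1))) →
    F ∈ froE p E (⨅ i, linI (P i) ^ (w i)) := by
  intro E
  induction E with
  | zero =>
    intro d F hF h
    show F ∈ ⨅ i, linI (P i) ^ (w i)
    rw [Submodule.mem_iInf]
    intro i
    have h1 := mem_linI_pow hF (hP i) (h i)
    have e1 : p ^ 0 * (w i + n - 1) - (n - 1) = w i := by
      rw [pow_zero, one_mul]
      omega
    rwa [e1] at h1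
  | succ E ih =>
    intro d F hF h
    show F ∈ fro p (froE p E (⨅ i, linI (P i) ^ (w i)))
    apply fro_of_cmp_mem
    intro b hb
    by_cases h0 : cmp p b F = 0
    · rw [h0]
      exact Ideal.zero_mem _
    obtain ⟨l, -, hl⟩ := cmp_homog' hb hF h0
    refine ih l _ hl fun i => ?_
    have hp : 0 < p := (Fact.out : p.Prime).pos
    have hW : n - 1 ≤ p ^ E * (w i + n - 1) := by
      have : 1 ≤ p ^ E := Nat.one_le_pow _ _ hp
      calc n - 1 ≤ w i + n - 1 := by omega
        _ = 1 * (w i + n - 1) := (one_mul _).symm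
        _ ≤ p ^ E * (w i + n - 1) := Nat.mul_le_mul_right _ this
    have h1 : F ∈ fro p (linI (P i) ^ (p ^ E * (w i + n - 1) - (n - 1))) := by
      refine mem_fro_linI hF (hP i) (h i) ?_
      obtain ⟨A, hA⟩ : ∃ A, p ^ E * (w i + n - 1) = A + (n - 1) := ⟨_, (Nat.sub_add_cancel hW).symm⟩
      have e2 : p ^ (E + 1) * (w i + n - 1) = p * A + p * (n - 1) := by
        rw [pow_succ, mul_comm (p ^ E) p, mul_assoc, hA, mul_add]
      rw [e2, hA, Nat.add_sub_cancel]
      obtain ⟨n', rfl⟩ : ∃ n', n = n' + 1 := ⟨n - 1, by omega⟩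
      have e3 : p * (A + (n' + 1)) = p * A + p * n' + p := by ring
      have e4 : n' + 1 - 1 = n' := by omega
      have e5 : n' ≤ p * n' := by nlinarith
      rw [e3, e4]
      omega
    have h2 := cmp_mem_of_fro h1 hb
    exact Ideal.pow_right_mono (linI_le_mI (P i)) _ h2

/-- removing a multiplier of small degree -/
theorem of_mul_mem_froE {N : ℕ} (B : Ideal (MvPolynomial (Fin N) k))
    (F : MvPolynomial (Fin N) k) : ∀ (E D : ℕ) (c : MvPolynomial (Fin N) k), c ≠ 0 →
    c.IsHomogeneous D → D < p ^ E → F ^ (p ^ E) * c ∈ froE p E B → F ∈ B := by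
  intro E
  induction E with
  | zero =>
    intro D c hc hD hlt h
    have hD0 : D = 0 := by
      rw [pow_zero] at hlt
      omega
    subst hD0
    rw [pow_zero, pow_one] at h
    have h5 := Nat.le_zero.1 hD.totalDegree_le
    have h2 : c = C (coeff 0 c) := totalDegree_eq_zero_iff_eq_C.1 h5
    have h3 : coeff 0 c ≠ 0 := by
      intro h4
      rw [h4, C_0] at h2
      exact hc h2
    rw [h2] at h
    have h6 := Ideal.mul_mem_right (C (coeff 0 c)⁻¹) _ h
    rw [mul_assoc, ← C_mul, mul_inv_cancel₀ h3, C_1, mul_one] at h6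
    exact h6
  | succ E ih =>
    intro D c hc hD hlt h
    have h1 : F ^ (p ^ (E + 1)) = (F ^ (p ^ E)) ^ p := by rw [← pow_mul, pow_succ]
    have h2 : ∃ b : Fin N →₀ ℕ, (∀ i, b i < p) ∧ cmp p b c ≠ 0 := by
      by_contra hcon
      push Not at hcon
      apply hc
      rw [cmp_decomp (p := p) c]
      apply Finset.sum_eq_zero
      intro f _
      rw [hcon _ (tf_lt f), zero_pow (Fact.out : p.Prime).pos.ne', zero_mul]
    obtain ⟨b, hb, hb0⟩ := h2
    obtain ⟨l, hl, hlh⟩ := cmp_homog' hb hD hb0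
    refine ih l (cmp p b c) hb0 hlh ?_ ?_
    · have h3 : p * l < p * p ^ E := by
        rw [← pow_succ']
        omega
      exact lt_of_mul_lt_mul_left h3 (Nat.zero_le _)
    · have h4 : F ^ (p ^ (E + 1)) * c ∈ fro p (froE p E B) := h
      have h5 := cmp_mem_of_fro h4 hb
      rwa [h1, cmp_pow_mul hb] at h5

include p in
/-- the containment for forms, perfect fields of positive characteristic -/
theorem contP_form (P : Fin s → Fin (n + 1) → k) (hP : ∀ i, P i ≠ 0) (w : Fin s → ℕ)
    (hn : 1 ≤ n) {t d : ℕ} (ht : 1 ≤ t) {F : MvPolynomial (Fin (n + 1)) k}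
    (hF : F.IsHomogeneous d) (h : ∀ i, F ∈ mI (P i) ^ (t * (w i + n - 1))) :
    F ∈ (⨅ i, linI (P i) ^ (w i)) ^ t := by
  by_cases h0 : F = 0
  · rw [h0]
    exact Ideal.zero_mem _
  have hp : 1 < p := (Fact.out : p.Prime).one_lt
  obtain ⟨E, hE⟩ : ∃ E, d * t < p ^ E := ⟨d * t, Nat.lt_pow_self hp⟩
  set q := p ^ E with hq
  set a := q / t with ha
  have h1 : q ≤ (a + 1) * t := by
    have h2 := Nat.div_add_mod q t
    have h3 := Nat.mod_lt q (by omega : 0 < t)
    rw [← ha] at h2
    nlinarith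
  have h4 : a * t ≤ q := Nat.div_mul_le_self q t
  have hG : F ^ (a + 1) ∈ froE p E (⨅ i, linI (P i) ^ (w i)) := by
    refine mem_froE p P hP w hn E (d * (a + 1)) _ ?_ fun i => ?_
    · exact hF.pow _
    · have h5 := Ideal.pow_mem_pow (h i) (a + 1)
      rw [← pow_mul] at h5
      refine Ideal.pow_le_pow_right ?_ h5
      calc p ^ E * (w i + n - 1) - (n - 1) ≤ q * (w i + n - 1) := Nat.sub_le _ _
        _ ≤ ((a + 1) * t) * (w i + n - 1) := Nat.mul_le_mul_right _ h1
        _ = t * (w i + n - 1) * (a + 1) := by ring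
  have hG2 := Ideal.pow_mem_pow hG t
  rw [froE_pow, ← pow_mul] at hG2
  have h6 : (a + 1) * t = q + ((a + 1) * t - q) := by omega
  rw [h6, pow_add] at hG2
  refine of_mul_mem_froE p _ F E (d * ((a + 1) * t - q)) _ (pow_ne_zero _ h0) (hF.pow _) ?_ hG2
  have h7 : (a + 1) * t - q ≤ t := by
    have : (a + 1) * t = a * t + t := by ring
    omega
  exact lt_of_le_of_lt (Nat.mul_le_mul_left _ h7) hE

include p in
/-- the containment, perfect fields of positive characteristic -/
theorem contP (P : Fin s → Fin (n + 1) → k) (hP : ∀ i, P i ≠ 0) (w : Fin s → ℕ)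
    (hn : 1 ≤ n) {t : ℕ} (ht : 1 ≤ t) :
    (⨅ i, linI (P i) ^ (t * (w i + n - 1))) ≤ (⨅ i, linI (P i) ^ (w i)) ^ t := by
  intro F hF
  rw [Submodule.mem_iInf] at hF
  rw [← sum_homogeneousComponent F]
  apply Ideal.sum_mem
  intro d _
  exact contP_form p P hP w hn ht (homogeneousComponent_isHomogeneous d F)
    fun i => Ideal.pow_right_mono (linI_le_mI (P i)) _ (component_mem (P i) _ (hF i) d)

end

end Pool.Agent.TH501.HHF
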