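import Pool.Agent.H737R3.Cont.Main

/-!
Euler's identity and symbolic powers of ideals of points: a surplus of the orders of vanishing
gives powers of the irrelevant ideal.
-/

set_option autoImplicit false

universe u

namespace Pool.Agent.TH501.HHF

open MvPolynomial Pool.Agent.H737R3 Pool.Agent.H737R3.Cont Pool.Agent.Chud

variable {K : Type u} [Field K] [CharZero K] {n s : ℕ}

/-- one step: Euler's identity -/
theorem euler_step (hs : 0 < s) (P : Fin s → Fin (n + 1) → K) (a : Fin s → ℕ) :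
    (⨅ i, linI (P i) ^ (a i + 1)) ≤ irr K n * ⨅ i, linI (P i) ^ (a i) := by
  intro F hF
  rw [Submodule.mem_iInf] at hF
  rw [← sum_homogeneousComponent F]
  apply Ideal.sum_mem
  intro d _
  have hf : ∀ i, homogeneousComponent d F ∈ linI (P i) ^ (a i + 1) :=
    fun i => component_mem (P i) _ (hF i) d
  have hh : (homogeneousComponent d F).IsHomogeneous d := homogeneousComponent_isHomogeneous d F
  generalize homogeneousComponent d F = f at hf hh
  rcases Nat.eq_zero_or_pos d with rfl | hd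
  · -- constants
    have h1 : f ∈ mI (P ⟨0, hs⟩) := by
      apply linI_le_mI
      exact Ideal.pow_le_self (Nat.succ_ne_zero _) (hf ⟨0, hs⟩)
    have h2 : f = C (coeff 0 f) := by
      have h5 := Nat.le_zero.1 hh.totalDegree_le
      exact totalDegree_eq_zero_iff_eq_C.1 h5
    have h3 : coeff 0 f = 0 := by
      have h4 : eval (P ⟨0, hs⟩) f = 0 := h1
      rw [h2, eval_C] at h4
      exact h4
    rw [h2, h3, C_0]
    exact Ideal.zero_mem _
  · have he := hh.sum_X_mul_pderiv
    have hd' : (C ((d : K)⁻¹) : MvPolynomial (Fin (n + 1)) K) * (d • f) = f := by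
      rw [nsmul_eq_mul, ← mul_assoc, ← C_eq_coe_nat, ← C_mul, inv_mul_cancel₀, C_1, one_mul]
      exact_mod_cast hd.ne'
    rw [← hd', ← he]
    apply Ideal.mul_mem_left
    apply Ideal.sum_mem
    intro j _
    apply Ideal.mul_mem_mul
    · exact Ideal.subset_span ⟨j, rfl⟩
    · rw [Submodule.mem_iInf]
      intro i
      exact pderiv_mem_pow j (a i) f (hf i)

/-- a surplus `e` of the orders gives the `e`-th power of the irrelevant ideal -/
theorem euler_pow (hs : 0 < s) (P : Fin s → Fin (n + 1) → K) (a : Fin s → ℕ) (e : ℕ) :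
    (⨅ i, linI (P i) ^ (a i + e)) ≤ irr K n ^ e * ⨅ i, linI (P i) ^ (a i) := by
  induction e with
  | zero => simp
  | succ e ih =>
    calc (⨅ i, linI (P i) ^ (a i + (e + 1))) ≤ irr K n * ⨅ i, linI (P i) ^ (a i + e) :=
          euler_step hs P fun i => a i + e
      _ ≤ irr K n * (irr K n ^ e * ⨅ i, linI (P i) ^ (a i)) := Ideal.mul_mono_right ih
      _ = irr K n ^ (e + 1) * ⨅ i, linI (P i) ^ (a i) := by rw [← mul_assoc, ← pow_succ']

/-- **The containment with a surplus**, characteristic zero: if `a i ≥ t (w i + n - 1) + e` for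
all `i`, then `⋂ I(P i)^(a i) ⊆ M^(t+e) (⋂ I(P i)^(w i))^t`. -/
theorem surplus (hn : 2 ≤ n) (hs : 0 < s) {t : ℕ} (ht : 0 < t) (P : Fin s → Fin (n + 1) → K)
    (hP : ∀ i, P i ≠ 0) (w a : Fin s → ℕ) (e : ℕ) (h : ∀ i, t * (w i + n - 1) + e ≤ a i) :
    (⨅ i, linI (P i) ^ (a i)) ≤ irr K n ^ (t + e) * (⨅ i, linI (P i) ^ (w i)) ^ t := by
  calc (⨅ i, linI (P i) ^ (a i)) ≤ ⨅ i, linI (P i) ^ (t * (w i + n - 1) + e) :=
        iInf_mono fun i => Ideal.pow_le_pow_right (h i)
    _ ≤ irr K n ^ e * ⨅ i, linI (P i) ^ (t * (w i + n - 1)) := euler_pow hs P _ e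
    _ ≤ irr K n ^ e * (irr K n ^ t * (⨅ i, linI (P i) ^ w i) ^ t) :=
        Ideal.mul_mono_right (cont hn hs ht P hP w)
    _ = irr K n ^ (t + e) * (⨅ i, linI (P i) ^ (w i)) ^ t := by
        rw [← mul_assoc, ← pow_add, add_comm e t]

end Pool.Agent.TH501.HHF
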