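import Pool.Agent.TH501.HHF.Split

/-!
A form which vanishes at points to given orders, and to exactly the given order at one of them.
-/

set_option autoImplicit false

universe u

namespace Pool.Agent.TH501.HHF

open MvPolynomial Pool.Agent.H737R3 Pool.Agent.H737R3.Cont Pool.Agent.Chud

variable {K : Type u} [Field K] {n s : ℕ}

/-- points which are not separated by a linear form have the same ideal -/
theorem linI_eq_or {P Q : Fin (n + 1) → K} (hP : P ≠ 0) (hQ : Q ≠ 0) :
    linI Q ≤ linI P ∨ ∃ l : MvPolynomial (Fin (n + 1)) K,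
      l.IsHomogeneous 1 ∧ eval P l = 0 ∧ eval Q l ≠ 0 := by
  by_cases h : ∃ l : MvPolynomial (Fin (n + 1)) K,
      l.IsHomogeneous 1 ∧ eval P l = 0 ∧ eval Q l ≠ 0
  · exact Or.inr h
  · left
    push Not at h
    obtain ⟨j, hj⟩ : ∃ j, P j ≠ 0 := by
      by_contra hcon
      push Not at hcon
      exact hP (funext hcon)
    have h1 : ∀ l, Q l = Q j * (P j)⁻¹ * P l := by
      intro l
      have h2 := h (X l * C (P j) - X j * C (P l)) (by
        have h3 : (X l * C (P j) : MvPolynomial (Fin (n + 1)) K).IsHomogeneous (1 + 0) :=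
          (isHomogeneous_X K l).mul (isHomogeneous_C _ _)
        have h4 : (X j * C (P l) : MvPolynomial (Fin (n + 1)) K).IsHomogeneous (1 + 0) :=
          (isHomogeneous_X K j).mul (isHomogeneous_C _ _)
        exact h3.sub h4) (by
        simp only [map_sub, map_mul, eval_X, eval_C]
        ring)
      simp only [map_sub, map_mul, eval_X, eval_C] at h2
      field_simp
      linear_combination h2
    rw [← span_eq_linI hQ, Ideal.span_le]
    rintro _ ⟨⟨a, b⟩, rfl⟩
    show (X a * C (Q b) - X b * C (Q a) : MvPolynomial (Fin (n + 1)) K) ∈ linI P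
    have h2 : (X a * C (P b) - X b * C (P a) : MvPolynomial (Fin (n + 1)) K) ∈ linI P := by
      rw [← span_eq_linI hP]
      exact Ideal.subset_span ⟨(a, b), rfl⟩
    have h3 := Ideal.mul_mem_left _ (C (Q j * (P j)⁻¹)) h2
    have h4 : (X a * C (Q b) - X b * C (Q a) : MvPolynomial (Fin (n + 1)) K) =
        C (Q j * (P j)⁻¹) * (X a * C (P b) - X b * C (P a)) := by
      rw [h1 a, h1 b]
      simp only [C_mul]
      ring
    rw [h4]
    exact h3

/-- a nonzero linear form through a point -/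
theorem exists_lin (hn : 1 ≤ n) {P : Fin (n + 1) → K} (hP : P ≠ 0) :
    ∃ l : MvPolynomial (Fin (n + 1)) K, l ≠ 0 ∧ l.IsHomogeneous 1 ∧ eval P l = 0 := by
  obtain ⟨j, hj⟩ : ∃ j, P j ≠ 0 := by
    by_contra hcon
    push Not at hcon
    exact hP (funext hcon)
  obtain ⟨l, hl⟩ : ∃ l : Fin (n + 1), l ≠ j := by
    have : Nontrivial (Fin (n + 1)) := Fin.nontrivial_iff_two_le.2 (by omega)
    exact exists_ne j
  refine ⟨X l * C (P j) - X j * C (P l), ?_, ?_, ?_⟩
  · intro h
    have h1 := congrArg (coeff (Finsupp.single l 1)) h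
    rw [coeff_sub, coeff_zero, mul_comm (X l), mul_comm (X j), coeff_C_mul, coeff_C_mul, coeff_X,
      coeff_X, if_pos rfl, if_neg, mul_one, mul_zero, sub_zero] at h1
    · exact hj h1
    · intro h2
      exact hl (Finsupp.single_left_injective one_ne_zero h2).symm
  · have h3 : (X l * C (P j) : MvPolynomial (Fin (n + 1)) K).IsHomogeneous (1 + 0) :=
      (isHomogeneous_X K l).mul (isHomogeneous_C _ _)
    have h4 : (X j * C (P l) : MvPolynomial (Fin (n + 1)) K).IsHomogeneous (1 + 0) :=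
      (isHomogeneous_X K j).mul (isHomogeneous_C _ _)
    exact h3.sub h4
  · simp only [map_sub, map_mul, eval_X, eval_C]
    ring

/-- powers of the irrelevant ideal contain no nonzero forms of smaller degree -/
theorem eq_zero_of_mem_irr_pow {d m : ℕ} {F : MvPolynomial (Fin (n + 1)) K}
    (hF : F.IsHomogeneous d) (h : F ∈ irr K n ^ m) (hd : d < m) : F = 0 := by
  have h1 : F ∈ idealOfVars (Fin (n + 1)) K ^ m := h
  rw [mem_pow_idealOfVars_iff'] at h1
  ext c
  rw [coeff_zero]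
  by_contra hc
  have h3 : c.degree = d := by
    rw [Finsupp.degree_eq_weight_one]
    exact hF hc
  exact hc (h1 c (by omega))

/-- removing a factor which does not vanish at the point -/
theorem cancel_mI {v : Fin (n + 1) → K} {m : ℕ} {a b : MvPolynomial (Fin (n + 1)) K}
    (h : a * b ∈ mI v ^ m) (hb : eval v b ≠ 0) : a ∈ mI v ^ m := by
  set c := eval v b with hc
  have h1 : C c - b ∈ mI v := by
    show eval v (C c - b) = 0
    rw [map_sub, eval_C, hc, sub_self]
  have h2 : b ∣ C c ^ m - (C c - b) ^ m := by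
    have := sub_dvd_pow_sub_pow (C c) (C c - b) m
    rwa [sub_sub_cancel] at this
  obtain ⟨r, hr⟩ := h2
  have h3 : a * C c ^ m ∈ mI v ^ m := by
    have h4 : a * C c ^ m = a * (C c - b) ^ m + a * b * r := by
      rw [mul_assoc, ← hr]
      ring
    rw [h4]
    exact Ideal.add_mem _ (Ideal.mul_mem_left _ _ (Ideal.pow_mem_pow h1 m))
      (Ideal.mul_mem_right _ _ h)
  have h5 := Ideal.mul_mem_right (C (c ^ m)⁻¹) _ h3
  rwa [mul_assoc, ← C_pow, ← C_mul, mul_inv_cancel₀ (pow_ne_zero m hb), C_1, mul_one] at h5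

/-- a form with exactly the prescribed order at one point -/
theorem exists_sharp (hn : 1 ≤ n) (hs : 0 < s) (P : Fin s → Fin (n + 1) → K)
    (hP : ∀ i, P i ≠ 0) (w : Fin s → ℕ) :
    ∃ (i₀ : Fin s) (e : ℕ) (g : MvPolynomial (Fin (n + 1)) K), g.IsHomogeneous e ∧
      g ∈ (⨅ i, linI (P i) ^ (w i)) ∧ g ∉ linI (P i₀) ^ (w i₀ + 1) := by
  classical
  have : Nonempty (Fin s) := ⟨⟨0, hs⟩⟩
  obtain ⟨i₀, hi₀⟩ := Finite.exists_max w
  obtain ⟨l₀, hl0, hl1, hl2⟩ := exists_lin hn (hP i₀)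
  have hch : ∀ i, ∃ l : MvPolynomial (Fin (n + 1)) K,
      (linI (P i₀) ≤ linI (P i) ∧ l = 1) ∨
      (l.IsHomogeneous 1 ∧ eval (P i) l = 0 ∧ eval (P i₀) l ≠ 0) := by
    intro i
    rcases linI_eq_or (hP i) (hP i₀) with h | ⟨l, h⟩
    · exact ⟨1, Or.inl ⟨h, rfl⟩⟩
    · exact ⟨l, Or.inr h⟩
  choose L hL using hch
  have hLh : ∀ i, ∃ e, (L i).IsHomogeneous e := by
    intro i
    rcases hL i with ⟨-, h⟩ | ⟨h, -⟩
    · rw [h]
      exact ⟨0, isHomogeneous_one _ _⟩
    · exact ⟨1, h⟩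
  choose E hE using hLh
  have hLe : ∀ i, eval (P i₀) (L i) ≠ 0 := by
    intro i
    rcases hL i with ⟨-, h⟩ | ⟨-, -, h⟩
    · rw [h, map_one]
      exact one_ne_zero
    · exact h
  refine ⟨i₀, 1 * w i₀ + ∑ i, E i * w i, l₀ ^ (w i₀) * ∏ i, L i ^ (w i), ?_, ?_, ?_⟩
  · refine (hl1.pow _).mul (IsHomogeneous.prod _ _ _ fun i _ => ?_)
    exact (hE i).pow _
  · rw [Submodule.mem_iInf]
    intro i
    rcases hL i with ⟨h, -⟩ | ⟨h1, h2, -⟩
    · apply Ideal.mul_mem_right
      have h3 : l₀ ∈ linI (P i) := h (Ideal.subset_span ⟨hl1, hl2⟩)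
      exact Ideal.pow_le_pow_right (hi₀ i) (Ideal.pow_mem_pow h3 _)
    · apply Ideal.mul_mem_left
      have h3 : L i ∈ linI (P i) := Ideal.subset_span ⟨h1, h2⟩
      rw [← Finset.mul_prod_erase _ _ (Finset.mem_univ i)]
      exact Ideal.mul_mem_right _ _ (Ideal.pow_mem_pow h3 _)
  · intro h
    have h1 := Ideal.pow_right_mono (linI_le_mI (P i₀)) _ h
    have h2 : l₀ ^ (w i₀) ∈ mI (P i₀) ^ (w i₀ + 1) := by
      refine cancel_mI h1 ?_
      rw [map_prod]
      apply Finset.prod_ne_zero_iff.2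
      intro i _
      rw [map_pow]
      exact pow_ne_zero _ (hLe i)
    have h3 : (l₀ ^ (w i₀)).IsHomogeneous (1 * w i₀) := hl1.pow _
    have h4 := mem_linI_pow h3 (hP i₀) h2
    have h5 := Ideal.pow_right_mono (linI_le_irr (P i₀)) _ h4
    exact pow_ne_zero _ hl0 (eq_zero_of_mem_irr_pow h3 h5 (by omega))

end Pool.Agent.TH501.HHF
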