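import Pool.Agent.TH501.HHF.Descent

/-!
Splitting off powers of the irrelevant ideal, arbitrary fields.
-/

set_option autoImplicit false

universe u

namespace Pool.Agent.TH501.HHF

open MvPolynomial Pool.Agent.H737R3 Pool.Agent.H737R3.Cont Pool.Agent.Chud

variable {K : Type u} [Field K] {n s : ℕ}

theorem linI_le_irr (q : Fin (n + 1) → K) : linI q ≤ irr K n := by
  unfold linI
  rw [Ideal.span_le]
  rintro l ⟨hl, -⟩
  rw [SetLike.mem_coe, l.as_sum]
  apply Ideal.sum_mem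
  intro c hc
  have h1 : c.degree = 1 := by
    have := hl (mem_support_iff.1 hc)
    rwa [Finsupp.degree_eq_weight_one]
  obtain ⟨j, hj⟩ : ∃ j, c j ≠ 0 := by
    by_contra hcon
    push Not at hcon
    have : c = 0 := Finsupp.ext hcon
    rw [this] at h1
    simp at h1
  have h2 : (monomial c) (coeff c l) = monomial (c - Finsupp.single j 1) (coeff c l) * X j := by
    rw [X, monomial_mul, mul_one, tsub_add_cancel_of_le]
    rw [Finsupp.single_le_iff]
    omega
  rw [h2]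
  exact Ideal.mul_mem_left _ _ (Ideal.subset_span ⟨j, rfl⟩)

/-- **Splitting.** Let `x` be multiplicities such that `c x i ≥ m i` and
`(r c + b) (x i + n - 1) ≤ a i` for all `i`, and `b (x i₀) ≥ e` for one `i₀`. Then
`⋂ I(P i)^(a i) ⊆ M^e (⋂ I(P i)^(m i))^r`. -/
theorem splitting (hn : 2 ≤ n) (P : Fin s → Fin (n + 1) → K) (hP : ∀ i, P i ≠ 0)
    (a x m : Fin s → ℕ) (r c b e : ℕ) (i₀ : Fin s) (hr : 1 ≤ r) (hc : 1 ≤ c)
    (h1 : ∀ i, m i ≤ c * x i) (h2 : ∀ i, (r * c + b) * (x i + n - 1) ≤ a i)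
    (h3 : e ≤ b * x i₀) :
    (⨅ i, linI (P i) ^ (a i)) ≤ irr K n ^ e * (⨅ i, linI (P i) ^ (m i)) ^ r := by
  have hs : 0 < s := i₀.pos
  have ht : 1 ≤ r * c + b := by
    have := Nat.mul_le_mul hr hc
    omega
  set B := ⨅ i, linI (P i) ^ (x i) with hB
  have h4 : B ≤ irr K n ^ (x i₀) :=
    le_trans (iInf_le _ i₀) (Ideal.pow_right_mono (linI_le_irr (P i₀)) _)
  have h5 : B ^ c ≤ ⨅ i, linI (P i) ^ (m i) := by
    refine le_iInf fun i => ?_
    calc B ^ c ≤ (linI (P i) ^ (x i)) ^ c := Ideal.pow_right_mono (iInf_le _ i) c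
      _ = linI (P i) ^ (c * x i) := by rw [← pow_mul, mul_comm]
      _ ≤ linI (P i) ^ (m i) := Ideal.pow_le_pow_right (h1 i)
  calc (⨅ i, linI (P i) ^ (a i)) ≤ ⨅ i, linI (P i) ^ ((r * c + b) * (x i + n - 1)) :=
        iInf_mono fun i => Ideal.pow_le_pow_right (h2 i)
    _ ≤ B ^ (r * c + b) := contAny hn hs P hP x ht
    _ = B ^ b * (B ^ c) ^ r := by
        rw [← pow_mul, ← pow_add]
        congr 1
        ring
    _ ≤ (irr K n ^ (x i₀)) ^ b * (⨅ i, linI (P i) ^ (m i)) ^ r :=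
        Ideal.mul_mono (Ideal.pow_right_mono h4 b) (Ideal.pow_right_mono h5 r)
    _ ≤ irr K n ^ e * (⨅ i, linI (P i) ^ (m i)) ^ r := by
        refine Ideal.mul_mono_left ?_
        rw [← pow_mul]
        exact Ideal.pow_le_pow_right (by rw [mul_comm]; exact h3)

end Pool.Agent.TH501.HHF
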