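import Pool.Agent.TH501.HHF.Sharp

/-!
A surplus of the orders of vanishing gives powers of the irrelevant ideal, arbitrary fields.
-/

set_option autoImplicit false

universe u

namespace Pool.Agent.TH501.HHF

open MvPolynomial Pool.Agent.H737R3 Pool.Agent.H737R3.Cont Pool.Agent.Chud

section

variable {k : Type u} [Field k] (p : ℕ) [Fact p.Prime] [CharP k p] [PerfectRing k p]

/-- Frobenius powers and adding a generator -/
theorem froE_sup {N : ℕ} (E : ℕ) (I : Ideal (MvPolynomial (Fin N) k))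
    (f : MvPolynomial (Fin N) k) :
    froE p E (I ⊔ Ideal.span {f}) ≤ froE p E I ⊔ Ideal.span {f ^ (p ^ E)} := by
  induction E with
  | zero =>
    rw [pow_zero, pow_one]
    exact le_rfl
  | succ E ih =>
    show fro p (froE p E (I ⊔ Ideal.span {f})) ≤ fro p (froE p E I) ⊔ _
    refine (fro_mono ih).trans ?_
    unfold fro
    rw [Ideal.map_sup, Ideal.map_span, Set.image_singleton, frobenius_def, ← pow_mul, ← pow_succ]

theorem froE_mono {N : ℕ} (E : ℕ) {I J : Ideal (MvPolynomial (Fin N) k)} (h : I ≤ J) :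
    froE p E I ≤ froE p E J := by
  induction E with
  | zero => exact h
  | succ E ih => exact fro_mono ih

/-- removing a multiplier with a term of small degree -/
theorem of_mul_mem_froE' {N : ℕ} (B : Ideal (MvPolynomial (Fin N) k))
    (F : MvPolynomial (Fin N) k) (hB : ∀ c, coeff 0 c = 0 → F * c ∈ B) :
    ∀ (E : ℕ) (c : MvPolynomial (Fin N) k) (a : Fin N →₀ ℕ), coeff a c ≠ 0 →
    a.degree < p ^ E → F ^ (p ^ E) * c ∈ froE p E B → F ∈ B := by
  intro E
  induction E with
  | zero =>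
    intro c a ha hlt h
    have ha0 : a = 0 := by
      rw [pow_zero, Nat.lt_one_iff] at hlt
      exact (Finsupp.degree_eq_zero_iff a).1 hlt
    subst ha0
    rw [pow_zero, pow_one] at h
    have h1 := hB (c - C (coeff 0 c)) (by rw [coeff_sub, coeff_C, if_pos rfl, sub_self])
    have h2 : F * C (coeff 0 c) ∈ B := by
      have := B.sub_mem h h1
      rwa [← mul_sub, sub_sub_cancel] at this
    have h6 := Ideal.mul_mem_right (C (coeff 0 c)⁻¹) _ h2
    rw [mul_assoc, ← C_mul, mul_inv_cancel₀ ha, C_1, mul_one] at h6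
    exact h6
  | succ E ih =>
    intro c a ha hlt h
    have hb : ∀ i, md p a i < p := md_lt p a
    refine ih (cmp p (md p a) c) (dv p a) ?_ ?_ ?_
    · rw [coeff_cmp hb, dv_md]
      intro h0
      apply ha
      rw [← ifr_pow (p := p) (coeff a c), h0, zero_pow (Fact.out : p.Prime).ne_zero]
    · have h1 : p * (dv p a).degree + (md p a).degree = a.degree := by
        conv_rhs => rw [← dv_md p a]
        rw [map_add, map_nsmul, smul_eq_mul]
      have h3 : p * (dv p a).degree < p * p ^ E := by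
        rw [← pow_succ']
        omega
      exact lt_of_mul_lt_mul_left h3 (Nat.zero_le _)
    · have h1 : F ^ (p ^ (E + 1)) = (F ^ (p ^ E)) ^ p := by rw [← pow_mul, pow_succ]
      have h4 : F ^ (p ^ (E + 1)) * c ∈ fro p (froE p E B) := h
      have h5 := cmp_mem_of_fro h4 hb
      rwa [h1, cmp_pow_mul hb] at h5

variable {n s : ℕ}

theorem mem_irr {c : MvPolynomial (Fin (n + 1)) k} (hc : coeff 0 c = 0) : c ∈ irr k n := by
  have h1 : c ∈ idealOfVars (Fin (n + 1)) k ^ 1 := by
    rw [mem_pow_idealOfVars_iff']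
    intro x hx
    rw [Nat.lt_one_iff] at hx
    rw [(Finsupp.degree_eq_zero_iff x).1 hx]
    exact hc
  rw [pow_one] at h1
  exact h1

/-- removing a generator from an ideal -/
theorem exists_hyper (J : Ideal (MvPolynomial (Fin (n + 1)) k))
    {F : MvPolynomial (Fin (n + 1)) k} (hFJ : F ∈ J) (hcon : F ∉ irr k n * J) :
    ∃ K : Ideal (MvPolynomial (Fin (n + 1)) k), F ∉ K ∧ J ≤ K ⊔ Ideal.span {F} ∧
      ∀ c, coeff 0 c = 0 → F * c ∈ K := by
  obtain ⟨φ, hφF, hφ⟩ := Submodule.exists_le_ker_of_notMem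
    (p := (irr k n * J).restrictScalars k) (v := F) hcon
  have hφ' : ∀ x ∈ irr k n * J, φ x = 0 := fun x hx => hφ hx
  have hφC : ∀ (a : k) (x : MvPolynomial (Fin (n + 1)) k), φ (C a * x) = a * φ x := by
    intro a x
    rw [← smul_eq_C_mul, map_smul, smul_eq_mul]
  let K : Ideal (MvPolynomial (Fin (n + 1)) k) :=
    { carrier := {x | x ∈ J ∧ φ x = 0}
      add_mem' := by
        rintro x y ⟨hx, hx'⟩ ⟨hy, hy'⟩
        exact ⟨J.add_mem hx hy, by rw [map_add, hx', hy', add_zero]⟩
      zero_mem' := ⟨J.zero_mem, map_zero _⟩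
      smul_mem' := by
        rintro a x ⟨hx, hx'⟩
        refine ⟨J.mul_mem_left a hx, ?_⟩
        have h1 : a • x = C (coeff 0 a) * x + (a - C (coeff 0 a)) * x := by
          rw [smul_eq_mul]
          ring
        rw [h1, map_add, hφC, hx', mul_zero, zero_add]
        apply hφ'
        apply Ideal.mul_mem_mul _ hx
        apply mem_irr
        rw [coeff_sub, coeff_C, if_pos rfl, sub_self] }
  refine ⟨K, fun hx => hφF hx.2, ?_, ?_⟩
  · intro x hx
    rw [Submodule.mem_sup]
    refine ⟨x - C (φ x / φ F) * F, ⟨J.sub_mem hx (J.mul_mem_left _ hFJ), ?_⟩,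
      C (φ x / φ F) * F, Ideal.mul_mem_left _ _ (Ideal.subset_span rfl), by ring⟩
    rw [map_sub, hφC, div_mul_cancel₀ _ hφF, sub_self]
  · intro c hc
    have h1 : F * c ∈ irr k n * J := by
      rw [mul_comm F c]
      exact Ideal.mul_mem_mul (mem_irr hc) hFJ
    exact ⟨Ideal.mul_le_right h1, hφ' _ h1⟩

include p in
/-- forms, perfect fields of positive characteristic -/
theorem stepP_form (P : Fin s → Fin (n + 1) → k) (hP : ∀ i, P i ≠ 0) (w : Fin s → ℕ)
    (hn : 2 ≤ n) (hs : 0 < s) {d : ℕ} {F : MvPolynomial (Fin (n + 1)) k}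
    (hF : F.IsHomogeneous d) (h : ∀ i, F ∈ linI (P i) ^ (w i + n - 1)) :
    F ∈ irr k n * ⨅ i, linI (P i) ^ (w i) := by
  by_contra hcon
  set J := ⨅ i, linI (P i) ^ (w i) with hJ
  have hFJ : F ∈ J := by
    rw [hJ, Submodule.mem_iInf]
    intro i
    exact Ideal.pow_le_pow_right (by omega) (h i)
  obtain ⟨K, hFK, hJK, hB⟩ := exists_hyper J hFJ hcon
  -- a sharp form
  obtain ⟨i₀, e, g, hg, hgJ, hgn⟩ := exists_sharp (by omega : 1 ≤ n) hs P hP w
  have hp : 1 < p := (Fact.out : p.Prime).one_lt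
  obtain ⟨E, hE⟩ : ∃ E, e < p ^ E := ⟨e, Nat.lt_pow_self hp⟩
  set q := p ^ E with hq
  have hq1 : 1 ≤ q := by omega
  have h1 : F ^ (q - 1) * g ∈ froE p E J := by
    refine mem_froE p P hP w (by omega) E (d * (q - 1) + e) _ ((hF.pow _).mul hg) fun i => ?_
    have h2 : F ^ (q - 1) ∈ mI (P i) ^ ((w i + n - 1) * (q - 1)) := by
      rw [pow_mul]
      exact Ideal.pow_mem_pow (Ideal.pow_right_mono (linI_le_mI (P i)) _ (h i)) _
    have h3 : g ∈ mI (P i) ^ (w i) := by
      apply Ideal.pow_right_mono (linI_le_mI (P i))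
      exact (Submodule.mem_iInf _).1 hgJ i
    have h4 := Ideal.mul_mem_mul h2 h3
    rw [← pow_add] at h4
    refine Ideal.pow_le_pow_right ?_ h4
    obtain ⟨q', hq'⟩ : ∃ q', q = q' + 1 := ⟨q - 1, by omega⟩
    rw [← hq, hq', Nat.add_sub_cancel]
    have h5 : (q' + 1) * (w i + n - 1) = (w i + n - 1) * q' + (w i + n - 1) := by ring
    rw [h5]
    omega
  have h2 := froE_sup p E K F (froE_mono p E hJK h1)
  obtain ⟨κ, hκ, y, hy, hκy⟩ := Submodule.mem_sup.1 h2
  obtain ⟨α, rfl⟩ := Ideal.mem_span_singleton'.1 hy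
  have h3 : F ^ (p ^ E) * (g - α * F) ∈ froE p E K := by
    have h4 : F ^ (p ^ E) * (g - α * F) = κ * F := by
      have h5 : F ^ (p ^ E) = F ^ (q - 1) * F := by
        rw [← pow_succ, Nat.sub_add_cancel hq1]
      have h6 : F ^ (p ^ E) * g = F * (F ^ (q - 1) * g) := by
        rw [h5]
        ring
      rw [mul_sub, h6, ← hκy]
      ring
    rw [h4]
    exact Ideal.mul_mem_right _ _ hκ
  have h4 : ∀ a : Fin (n + 1) →₀ ℕ, a.degree < q → coeff a (g - α * F) = 0 := by
    intro a ha
    by_contra h5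
    exact hFK (of_mul_mem_froE' p K F hB E _ a h5 ha h3)
  apply hgn
  have h5 : g = homogeneousComponent e (α * F) := by
    have h6 : homogeneousComponent e (g - α * F) = 0 := by
      ext a
      rw [coeff_homogeneousComponent, coeff_zero]
      split_ifs with h7
      · exact h4 a (by rw [h7]; exact hE)
      · rfl
    rw [map_sub, sub_eq_zero] at h6
    rw [← h6]
    exact (homogeneousComponent_of_mem hg).symm ▸ (by simp)
  rw [h5]
  apply component_mem
  apply Ideal.mul_mem_left
  exact Ideal.pow_le_pow_right (by omega) (h i₀)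

include p in
/-- perfect fields of positive characteristic -/
theorem stepP (P : Fin s → Fin (n + 1) → k) (hP : ∀ i, P i ≠ 0) (w : Fin s → ℕ)
    (hn : 2 ≤ n) (hs : 0 < s) :
    (⨅ i, linI (P i) ^ (w i + n - 1)) ≤ irr k n * ⨅ i, linI (P i) ^ (w i) := by
  intro F hF
  rw [Submodule.mem_iInf] at hF
  rw [← sum_homogeneousComponent F]
  apply Ideal.sum_mem
  intro d _
  exact stepP_form p P hP w hn hs (homogeneousComponent_isHomogeneous d F)
    fun i => component_mem (P i) _ (hF i) d

end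

section

variable {K k : Type u} [Field K] [Field k] [Algebra K k] {n s : ℕ}

/-- descent of a containment in an extended ideal -/
theorem descent_map (P : Fin s → Fin (n + 1) → K) (hP : ∀ i, P i ≠ 0) (u : Fin s → ℕ)
    (I : Ideal (MvPolynomial (Fin (n + 1)) K))
    (h : (⨅ i, linI (fun j => algebraMap K k (P i j)) ^ (u i)) ≤
      Ideal.map (map (algebraMap K k)) I) :
    (⨅ i, linI (P i) ^ (u i)) ≤ I := by
  intro F hF
  rw [Submodule.mem_iInf] at hF
  set e := Module.Basis.ofVectorSpace K k with he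
  have h1 : map (algebraMap K k) F ∈ ⨅ i, linI (fun j => algebraMap K k (P i j)) ^ (u i) := by
    rw [Submodule.mem_iInf]
    intro i
    rw [← map_linI (hP i), ← Ideal.map_pow]
    exact Ideal.mem_map_of_mem _ (hF i)
  have h3 := h h1
  obtain ⟨j, hj⟩ : ∃ j, e.repr 1 j ≠ 0 := by
    by_contra hcon
    push Not at hcon
    have h4 : e.repr (1 : k) = 0 := by
      ext j
      exact hcon j
    have h5 : (1 : k) = 0 := by
      rw [← e.repr.map_eq_zero_iff]
      exact h4
    exact one_ne_zero h5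
  have h6 := co_mem e _ j h3
  have h7 : co e j (map (algebraMap K k) F) = C (e.repr 1 j) * F := by
    have h8 := co_mul_map e j (1 : MvPolynomial (Fin (n + 1)) k) F
    rw [one_mul] at h8
    rw [h8]
    congr 1
    classical
    ext c
    rw [coeff_co, coeff_one, coeff_C]
    split_ifs
    · rfl
    · simp
  rw [h7] at h6
  have h9 := Ideal.mul_mem_left _ (C (e.repr 1 j)⁻¹) h6
  rw [← mul_assoc, ← C_mul, inv_mul_cancel₀ hj, C_1, one_mul] at h9
  exact h9

theorem iInf_le_map (P : Fin s → Fin (n + 1) → K) (hP : ∀ i, P i ≠ 0) (w : Fin s → ℕ) :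
    (⨅ i, linI (fun j => algebraMap K k (P i j)) ^ (w i)) ≤
      Ideal.map (map (algebraMap K k)) (⨅ i, linI (P i) ^ (w i)) := by
  set e := Module.Basis.ofVectorSpace K k with he
  intro f hf
  rw [Submodule.mem_iInf] at hf
  apply mem_map_of_co e
  intro j
  rw [Submodule.mem_iInf]
  intro i
  apply co_mem e
  rw [Ideal.map_pow, map_linI (hP i)]
  exact hf i

theorem irr_le_map : irr k n ≤ Ideal.map (map (algebraMap K k)) (irr K n) := by
  unfold irr
  rw [Ideal.span_le]
  rintro _ ⟨j, rfl⟩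
  have h1 : (X j : MvPolynomial (Fin (n + 1)) k) = map (algebraMap K k) (X j) := by
    rw [map_X]
  show (X j : MvPolynomial (Fin (n + 1)) k) ∈ _
  rw [h1]
  exact Ideal.mem_map_of_mem _ (Ideal.subset_span ⟨j, rfl⟩)

/-- **A surplus `n - 1` of the orders gives a factor in the irrelevant ideal**, arbitrary
fields. -/
theorem stepAny (hn : 2 ≤ n) (hs : 0 < s) (P : Fin s → Fin (n + 1) → K) (hP : ∀ i, P i ≠ 0)
    (w : Fin s → ℕ) :
    (⨅ i, linI (P i) ^ (w i + n - 1)) ≤ irr K n * ⨅ i, linI (P i) ^ (w i) := by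
  obtain ⟨p, hp⟩ := CharP.exists K
  rcases CharP.char_is_prime_or_zero K p with hpp | rfl
  · have : Fact p.Prime := ⟨hpp⟩
    have : CharP (AlgebraicClosure K) p :=
      charP_of_injective_algebraMap (algebraMap K (AlgebraicClosure K)).injective p
    apply descent_map (k := AlgebraicClosure K) P hP
    rw [Ideal.map_mul]
    refine le_trans ?_ (Ideal.mul_mono irr_le_map (iInf_le_map P hP w))
    refine stepP p (fun i j => algebraMap K (AlgebraicClosure K) (P i j)) (fun i h => ?_) w hn hs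
    apply hP i
    funext j
    have := congrFun h j
    simpa using this
  · have : CharZero K := CharP.charP_to_charZero K
    refine le_trans ?_ (euler_step hs P w)
    exact iInf_mono fun i => Ideal.pow_le_pow_right (by omega)

/-- a surplus `e (n - 1)` of the orders gives the `e`-th power of the irrelevant ideal -/
theorem surplusAny (hn : 2 ≤ n) (hs : 0 < s) (P : Fin s → Fin (n + 1) → K)
    (hP : ∀ i, P i ≠ 0) (e : ℕ) (w a : Fin s → ℕ) (h : ∀ i, w i + e * (n - 1) ≤ a i) :
    (⨅ i, linI (P i) ^ (a i)) ≤ irr K n ^ e * ⨅ i, linI (P i) ^ (w i) := by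
  induction e generalizing a with
  | zero =>
    rw [pow_zero, one_mul]
    exact iInf_mono fun i => Ideal.pow_le_pow_right (by simpa using h i)
  | succ e ih =>
    calc (⨅ i, linI (P i) ^ (a i)) ≤ ⨅ i, linI (P i) ^ ((w i + e * (n - 1)) + n - 1) := by
          refine iInf_mono fun i => Ideal.pow_le_pow_right ?_
          have h1 := h i
          have h2 : (e + 1) * (n - 1) = e * (n - 1) + (n - 1) := by ring
          rw [h2] at h1
          omega
      _ ≤ irr K n * ⨅ i, linI (P i) ^ (w i + e * (n - 1)) := stepAny hn hs P hP _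
      _ ≤ irr K n * (irr K n ^ e * ⨅ i, linI (P i) ^ (w i)) :=
          Ideal.mul_mono_right (ih _ fun i => le_rfl)
      _ = irr K n ^ (e + 1) * ⨅ i, linI (P i) ^ (w i) := by rw [← mul_assoc, ← pow_succ']

/-- powers with a surplus, arbitrary fields: if `a i ≥ t (w i + (e + 1) (n - 1))` then
`⋂ I(P i)^(a i) ⊆ M^(t e) (⋂ I(P i)^(w i))^t` -/
theorem powSurplusAny (hn : 2 ≤ n) (hs : 0 < s) (P : Fin s → Fin (n + 1) → K)
    (hP : ∀ i, P i ≠ 0) (e : ℕ) (w a : Fin s → ℕ) {t : ℕ} (ht : 1 ≤ t)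
    (h : ∀ i, t * (w i + e * (n - 1) + n - 1) ≤ a i) :
    (⨅ i, linI (P i) ^ (a i)) ≤ irr K n ^ (t * e) * (⨅ i, linI (P i) ^ (w i)) ^ t := by
  calc (⨅ i, linI (P i) ^ (a i)) ≤ ⨅ i, linI (P i) ^ (t * ((w i + e * (n - 1)) + n - 1)) :=
        iInf_mono fun i => Ideal.pow_le_pow_right (h i)
    _ ≤ (⨅ i, linI (P i) ^ (w i + e * (n - 1))) ^ t := contAny hn hs P hP _ ht
    _ ≤ (irr K n ^ e * ⨅ i, linI (P i) ^ (w i)) ^ t :=
        Ideal.pow_right_mono (surplusAny hn hs P hP e w _ fun i => le_rfl) t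
    _ = irr K n ^ (t * e) * (⨅ i, linI (P i) ^ (w i)) ^ t := by
        rw [mul_pow, ← pow_mul, mul_comm e t]

end

end Pool.Agent.TH501.HHF
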